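import Pool.Agent.H86.PpA

set_option autoImplicit false

namespace Pool.Agent.Results.MP_2a9019_an.Lower

open Set Filter Topology Pool.Agent.H86.Pmc Real
open scoped ENNReal

/-- The trigonometric polynomial `α₀ + ∑_{k=1}^n (α_k cos kt + β_k sin kt)`. -/
noncomputable def tr (n : ℕ) (α β : ℕ → ℝ) (t : ℝ) : ℝ :=
  α 0 + ∑ k ∈ Finset.Icc 1 n, (α k * cos (k * t) + β k * sin (k * t))

/-- The class `T_n²`. -/
def T2 (n : ℕ) : Set (Set (ℝ × ℝ)) :=
  {γ | ∃ α β α' β' : ℕ → ℝ, γ = (fun t => (tr n α β t, tr n α' β' t)) '' Icc 0 (2 * π)}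

/-- The constant `c₂` (unit square). -/
noncomputable def c2 : ℝ≥0∞ :=
  limsup (fun n : ℕ => ENNReal.ofReal √(n : ℝ) * errW (T2 n) (ZD 0 1)) atTop

theorem result :
    (∀ n : ℕ, ENNReal.ofReal (1 / (2 * √(2 * n + 1 : ℝ) + 8)) ≤ errW (T2 n) (ZD 0 1)) ∧
    ENNReal.ofReal (1 / (2 * √2)) ≤ c2 := by
  have hM : ∀ n α β, InM (2 * n + 1) (fun s => tr n α β (2 * π * s)) := by
    intro n α β
    classical
    let g : ℝ → ℝ := fun t => ∑ k ∈ Finset.Icc 1 n, (k : ℝ) * (β k * cos (k * t) - α k * sin (k * t))
    have hd : ∀ s, HasDerivAt (fun s => tr n α β (2 * π * s)) (g (2 * π * s) * (2 * π)) s := by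
      intro s
      have h1 : ∀ t, HasDerivAt (tr n α β) (g t) t := fun t => by
        unfold tr
        refine HasDerivAt.const_add _ (HasDerivAt.fun_sum fun k _ => ?_)
        have e : HasDerivAt (fun t : ℝ => (k : ℝ) * t) k t := by
          simpa using (hasDerivAt_id t).const_mul (k : ℝ)
        exact ((e.cos.const_mul (α k)).fun_add (e.sin.const_mul (β k))).congr_deriv (by ring)
      have e : HasDerivAt (fun s : ℝ => 2 * π * s) (2 * π) s := by
        simpa using (hasDerivAt_id s).const_mul (2 * π)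
      exact (h1 _).comp s e
    let Q : Polynomial ℂ := ∑ k ∈ Finset.Icc 1 n,
      (Polynomial.C ((k : ℂ) * (β k + α k * Complex.I) / 2) * Polynomial.X ^ (n + k) +
        Polynomial.C ((k : ℂ) * (β k - α k * Complex.I) / 2) * Polynomial.X ^ (n - k))
    have hQ : Q.natDegree ≤ 2 * n := Polynomial.natDegree_sum_le_of_forall_le _ _ fun k hk => by
      have := (Finset.mem_Icc.1 hk).2
      exact (Polynomial.natDegree_add_le _ _).trans (max_le
        ((Polynomial.natDegree_C_mul_X_pow_le _ _).trans (by omega))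
        ((Polynomial.natDegree_C_mul_X_pow_le _ _).trans (by omega)))
    have hE : ∀ t : ℝ, Q.eval (Complex.exp (t * Complex.I)) =
        Complex.exp (t * Complex.I) ^ n * (g t : ℂ) := fun t => by
      simp only [Q, g, Polynomial.eval_finsetSum, Complex.ofReal_sum, Finset.mul_sum]
      refine Finset.sum_congr rfl fun k hk => ?_
      obtain ⟨m, rfl⟩ := Nat.exists_eq_add_of_le (Finset.mem_Icc.1 hk).2
      have e1 : Complex.exp (t * Complex.I) ^ k =
          Complex.cos (k * t) + Complex.sin (k * t) * Complex.I := by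
        rw [← Complex.exp_nat_mul, ← mul_assoc, Complex.exp_mul_I]
      have e2 := Complex.cos_sq_add_sin_sq ((k : ℂ) * t)
      simp only [Polynomial.eval_add, Polynomial.eval_mul, Polynomial.eval_C, Polynomial.eval_pow,
        Polynomial.eval_X, Nat.add_sub_cancel_left, pow_add, e1]
      push_cast
      generalize Complex.cos (k * t) = c at *
      generalize Complex.sin (k * t) = s at *
      generalize Complex.exp (t * Complex.I) ^ m = w
      linear_combination (-(k : ℂ) * w * (β k - α k * Complex.I) / 2) * e2 +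
        ((k : ℂ) * w * (β k * s ^ 2 + 2 * α k * c * s + α k * s ^ 2 * Complex.I) / 2 +
          (k : ℂ) * w * α k * s ^ 2 * Complex.I * 0) * Complex.I_sq
    let E : ℝ → ℂ := fun s => Complex.exp (((2 * π * s : ℝ) : ℂ) * Complex.I)
    have hI : InjOn E (Ioo 0 1) := fun a ha b hb e => by
      obtain ⟨j, hj⟩ := Complex.exp_eq_exp_iff_exists_int.1 e
      have h1 := congrArg Complex.im hj
      simp at h1
      have h2 : a = b + j := by
        have := pi_pos
        apply mul_left_cancel₀ (show 2 * π ≠ 0 by positivity)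
        linarith
      have h3 : (j : ℝ) < 1 := by linarith [ha.2, hb.1]
      have h4 : (-1 : ℝ) < j := by linarith [ha.1, hb.2]
      norm_cast at h3 h4
      rw [h2, show j = 0 by omega]; simp
    refine inM_of_cut (fun s _ => (hd s).continuousAt.continuousWithinAt)
      (Q.roots.toFinset.image (Function.invFunOn E (Ioo 0 1))) (fun a b h0 _ h1 h => ?_) ?_
    · refine mono_of_deriv hd (by simp only [g]; fun_prop) ?_
      by_cases e : Q = 0
      · refine Or.inl fun s => ?_
        have := hE (2 * π * s)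
        rw [e, Polynomial.eval_zero, eq_comm, mul_eq_zero] at this
        rcases this with h | h
        · exact absurd h (pow_ne_zero _ (Complex.exp_ne_zero _))
        · rw [Complex.ofReal_eq_zero.1 h, zero_mul]
      · refine Or.inr fun s hs e' => h s (Finset.mem_image.2 ⟨E s, ?_,
          hI.leftInvOn_invFunOn ⟨h0.trans_lt hs.1, hs.2.trans_le h1⟩⟩) hs
        have : g (2 * π * s) = 0 := (mul_eq_zero.1 e').resolve_right (by positivity)
        rw [Multiset.mem_toFinset, Polynomial.mem_roots e, Polynomial.IsRoot]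
        simp only [E]
        rw [hE, this]; simp
    · exact Nat.succ_le_succ (Finset.card_image_le.trans ((Multiset.toFinset_card_le _).trans
        ((Polynomial.card_roots' _).trans hQ)))
  have key : ∀ n : ℕ,
      ENNReal.ofReal (1 / (2 * √(2 * n + 1 : ℝ) + 8)) ≤ errW (T2 n) (ZD 0 1) := fun n => by
    have := lowZ (2 * n + 1)
    push_cast at this
    refine this.trans (errW_mono (W' := M2 (2 * n + 1)) (ZD 0 1) ?_)
    rintro _ ⟨α, β, α', β', rfl⟩
    refine ⟨_, _, hM n α β, hM n α' β', ?_⟩
    have : Icc 0 (2 * π) = (fun s => 2 * π * s) '' Icc 0 1 := by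
      rw [image_mul_left_Icc (by positivity) zero_le_one]; simp
    rw [this, image_image]; rfl
  refine ⟨key, lim_low (B := 10) (by positivity) (by norm_num) _
    (Real.tendsto_sqrt_atTop.comp tendsto_natCast_atTop_atTop) _ fun n _ =>
      (ENNReal.ofReal_le_ofReal (one_div_le_one_div_of_le (by positivity) ?_)).trans (key n)⟩
  have : √(2 * n + 1 : ℝ) ≤ √2 * √(n : ℝ) + 1 := by
    rw [Real.sqrt_le_left (by positivity), ← Real.sqrt_mul (by norm_num)]
    nlinarith [Real.sq_sqrt (show (0 : ℝ) ≤ 2 * n by positivity), Real.sqrt_nonneg (2 * n : ℝ)]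
  simp only [Function.comp]
  linarith

end Pool.Agent.Results.MP_2a9019_an.Lower
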